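import Pool.Agent.Results.MP_f54a22_an.ParityLaw
import Pool.Agent.H516.GTQ1.Null

/-! # MP_f54a22_an: the law of the cardinality of a random level set of the Takagi function
modulo 4 -/

open MeasureTheory Set Filter Topology

namespace Pool.Agent.Results.MP_f54a22_an.LawModFour

/-- the Takagi function `T(x) = ∑ φ(2^n x) / 2^n`, `φ(u) = |u - round u| = dist(u, ℤ)` -/
noncomputable def T (x : ℝ) : ℝ :=
  ∑' n : ℕ, |(2:ℝ) ^ n * x - round ((2:ℝ) ^ n * x)| / 2 ^ n

/-- the level set `L(y) = {x ∈ [0,1] : T(x) = y}` -/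
def L (y : ℝ) : Set ℝ := {x | x ∈ Icc (0:ℝ) 1 ∧ T x = y}

theorem T_eq (x : ℝ) : T x = Pool.Agent.H316R3.Tak.T x := rfl

theorem L_eq (y : ℝ) : L y = ParityLaw.L y := rfl

theorem tak_eq (x : ℝ) : R109.GT.tak (fun _ _ => 1) x = T x := by
  unfold R109.GT.tak T R109.GT.phi
  apply tsum_congr
  intro n
  push_cast
  rw [one_mul]

theorem ae_fin : ∀ᵐ y ∂(volume : Measure ℝ), (L y).Finite := by
  have hs : R109.GT.Sgn (fun _ _ => 1) := fun _ _ => Or.inl rfl
  have h := R109.GT.ae_finite (fun _ _ => 1) hs (H516.GTQ1.null _ hs)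
  filter_upwards [h] with y hy
  refine hy.subset ?_
  intro x hx
  exact ⟨hx.1, by rw [tak_eq]; exact hx.2⟩

/-- For a level `y` chosen uniformly in `[0,2/3]`, `|L(y)| ≡ 2 (mod 4)` has probability `3/4` and
`|L(y)| ≡ 0 (mod 4)` has probability `1/4`: the corresponding sets of levels (with finite level
set) have Lebesgue measure `1/2` and `1/6`. -/
theorem result :
    volume {y | y ∈ Icc (0:ℝ) (2 / 3) ∧ (L y).Finite ∧ (L y).ncard % 4 = 2} =
        ENNReal.ofReal (1 / 2) ∧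
      volume {y | y ∈ Icc (0:ℝ) (2 / 3) ∧ (L y).Finite ∧ (L y).ncard % 4 = 0} =
        ENNReal.ofReal (1 / 6) := by
  have h0 : volume {y | y ∈ Icc (0:ℝ) (2 / 3) ∧ ¬ (ParityLaw.L y).Finite} = 0 := by
    have h := ae_fin
    rw [ae_iff] at h
    refine measure_mono_null ?_ h
    rintro y ⟨-, hy⟩
    exact hy
  obtain ⟨h1, h2⟩ := ParityLaw.result.2.2.2.1 h0
  have e1 : {y | y ∈ Icc (0:ℝ) (2 / 3) ∧ (L y).Finite ∧ (L y).ncard % 4 = 2} =
      ⋃ n ∈ {n : ℕ | Odd n}, ParityLaw.S n := by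
    ext y
    simp only [mem_ofPred_eq, mem_iUnion, ParityLaw.S, exists_prop]
    constructor
    · rintro ⟨hy, hf, hm⟩
      refine ⟨(L y).ncard / 2, ?_, hy, ?_⟩
      · rw [Nat.odd_iff]; omega
      · rw [← L_eq, ← hf.cast_ncard_eq]
        have : (L y).ncard = 2 * ((L y).ncard / 2) := by omega
        conv_lhs => rw [this]
        push_cast
        rfl
    · rintro ⟨n, hn, hy, hc⟩
      rw [← L_eq] at hc
      have hf : (L y).Finite := finite_of_encard_eq_coe (k := 2 * n) (by rw [hc]; push_cast; rfl)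
      refine ⟨hy, hf, ?_⟩
      have hc2 : ((L y).ncard : ℕ∞) = ((2 * n : ℕ) : ℕ∞) := by
        rw [hf.cast_ncard_eq, hc]; push_cast; rfl
      have hc3 : (L y).ncard = 2 * n := by exact_mod_cast hc2
      rw [hc3]
      rw [Nat.odd_iff] at hn
      omega
  have e2 : {y | y ∈ Icc (0:ℝ) (2 / 3) ∧ (L y).Finite ∧ (L y).ncard % 4 = 0} =
      ⋃ n ∈ {n : ℕ | Even n}, ParityLaw.S n := by
    ext y
    simp only [mem_ofPred_eq, mem_iUnion, ParityLaw.S, exists_prop]
    constructor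
    · rintro ⟨hy, hf, hm⟩
      refine ⟨(L y).ncard / 2, ?_, hy, ?_⟩
      · rw [Nat.even_iff]; omega
      · rw [← L_eq, ← hf.cast_ncard_eq]
        have : (L y).ncard = 2 * ((L y).ncard / 2) := by omega
        conv_lhs => rw [this]
        push_cast
        rfl
    · rintro ⟨n, hn, hy, hc⟩
      rw [← L_eq] at hc
      have hf : (L y).Finite := finite_of_encard_eq_coe (k := 2 * n) (by rw [hc]; push_cast; rfl)
      refine ⟨hy, hf, ?_⟩
      have hc2 : ((L y).ncard : ℕ∞) = ((2 * n : ℕ) : ℕ∞) := by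
        rw [hf.cast_ncard_eq, hc]; push_cast; rfl
      have hc3 : (L y).ncard = 2 * n := by exact_mod_cast hc2
      rw [hc3]
      rw [Nat.even_iff] at hn
      omega
  rw [e1, e2]
  exact ⟨h1, h2⟩

end Pool.Agent.Results.MP_f54a22_an.LawModFour
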